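import Pool.Agent.Helper20.HT.Sum

/-!
The lists of the requirements.
-/

namespace Pool.Agent.Helper20.HT

open Finset
open Nat.Partrec (Code)
open Nat.Partrec.Code

/-- decoding of the arguments of a matrix -/
def idx (n d : ℕ) : ℕ × ℕ × ℕ × ℕ :=
  (n.unpair.1, n.unpair.2.unpair.1, n.unpair.2.unpair.2, d)

theorem computable_idx : Computable fun q : ℕ × ℕ => idx q.1 q.2 := by
  have hu : Primrec fun q : ℕ × ℕ => q.1.unpair := Primrec.unpair.comp Primrec.fst
  have hu2 : Primrec fun q : ℕ × ℕ => q.1.unpair.2.unpair :=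
    Primrec.unpair.comp (Primrec.snd.comp hu)
  have h : Primrec fun q : ℕ × ℕ => idx q.1 q.2 :=
    Primrec.pair (Primrec.fst.comp hu)
      (Primrec.pair (Primrec.fst.comp hu2)
        (Primrec.pair (Primrec.snd.comp hu2) Primrec.snd))
  exact h.to_comp

/-- an index for a computable matrix -/
theorem exists_index {R : ℕ × ℕ × ℕ × ℕ → Bool} (hR : Computable R) :
    ∃ e : ℕ, ∀ x a b : ℕ, (∃ t, conf t e x a b = true) ↔ ∃ d, R (x, a, b, d) = true := by
  have h1 : Computable₂ (fun (n d : ℕ) => R (idx n d)) := (hR.comp computable_idx).to₂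
  have h2 : Partrec fun n : ℕ => Nat.rfind fun d : ℕ => ((R (idx n d) : Bool) : Part Bool) :=
    Partrec.rfind h1.partrec₂
  obtain ⟨c, hc⟩ := exists_code.1 (Partrec.nat_iff.1 h2)
  refine ⟨Encodable.encode c, fun x a b => ?_⟩
  have h3 : (∃ t, conf t (Encodable.encode c) x a b = true) ↔
      (eval c (Nat.pair x (Nat.pair a b))).Dom := by
    unfold conf
    rw [Denumerable.ofNat_encode]
    constructor
    · rintro ⟨t, ht⟩
      obtain ⟨y, hy⟩ := Option.isSome_iff_exists.1 ht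
      exact Part.dom_iff_mem.2 ⟨y, evaln_sound hy⟩
    · intro h
      obtain ⟨y, hy⟩ := Part.dom_iff_mem.1 h
      obtain ⟨t, ht⟩ := evaln_complete.1 hy
      exact ⟨t, Option.isSome_iff_exists.2 ⟨y, ht⟩⟩
  rw [h3, hc]
  have h5 : ∀ d, idx (Nat.pair x (Nat.pair a b)) d = (x, a, b, d) := by
    intro d
    simp [idx]
  refine Iff.trans (Nat.rfind_dom (p := fun d : ℕ =>
    ((R (idx (Nat.pair x (Nat.pair a b)) d) : Bool) : Part Bool))) ?_
  simp only [h5]
  constructor
  · rintro ⟨d, hd, _⟩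
    exact ⟨d, by simpa using hd⟩
  · rintro ⟨d, hd⟩
    exact ⟨d, by simpa using hd, fun _ => trivial⟩

theorem conf_mono {t t' e x a b : ℕ} (h : t ≤ t') (hc : conf t e x a b = true) :
    conf t' e x a b = true := by
  unfold conf at *
  obtain ⟨y, hy⟩ := Option.isSome_iff_exists.1 hc
  exact Option.isSome_iff_exists.2 ⟨y, evaln_mono h hy⟩

theorem fst_le_encode (l : List (ℕ × ℕ)) : ∀ p ∈ l, p.1 ≤ Encodable.encode l := by
  induction l with
  | nil => simp
  | cons q l ih =>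
    intro p hp
    rw [Encodable.encode_list_cons]
    rcases List.mem_cons.1 hp with rfl | h
    · have h1 : p.1 ≤ Encodable.encode p := by
        obtain ⟨a, b⟩ := p
        simpa using Nat.left_le_pair a b
      exact le_trans h1 (le_trans (Nat.left_le_pair _ _) (Nat.le_succ _))
    · exact le_trans (ih p h) (le_trans (Nat.right_le_pair _ _) (Nat.le_succ _))

theorem fst_le_of_mem_lst {n : ℕ} {p : ℕ × ℕ} (h : p ∈ lst n) : p.1 ≤ n := by
  have := fst_le_encode (lst n) p h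
  unfold lst at this
  rwa [Denumerable.encode_ofNat] at this

theorem hit_iff {p : ℕ × ℕ} {x : ℕ} : hit p x = true ↔ 0 < p.1 ∧ lg p.1 = x := by
  simp [hit]

theorem mem_dl {n x : ℕ} : x ∈ dl n ↔ ∃ p ∈ lst n, 0 < p.1 ∧ lg p.1 = x := by
  unfold dl
  rw [List.mem_filter, List.any_eq_true]
  constructor
  · rintro ⟨_, p, hp, h⟩
    exact ⟨p, hp, hit_iff.1 h⟩
  · rintro ⟨p, hp, h⟩
    refine ⟨List.mem_range.2 ?_, p, hp, hit_iff.2 h⟩
    have h1 := fst_le_of_mem_lst hp
    have h2 := lg_le p.1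
    omega

theorem nodup_dl (n : ℕ) : (dl n).Nodup := List.nodup_range.filter _

theorem rep_spec {n x : ℕ} (h : x ∈ dl n) : ∃ p ∈ lst n, rep n x = p.1 ∧ 0 < p.1 ∧ lg p.1 = x := by
  obtain ⟨p, hp, hx⟩ := mem_dl.1 h
  have h1 : (lst n).findIdx (fun p => hit p x) < (lst n).length :=
    List.findIdx_lt_length_of_exists ⟨p, hp, hit_iff.2 hx⟩
  refine ⟨(lst n)[(lst n).findIdx (fun p => hit p x)], List.getElem_mem h1, ?_, ?_⟩
  · unfold rep
    rw [List.getD_eq_getElem _ _ h1]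
  · have := List.findIdx_getElem (w := h1)
    exact hit_iff.1 this

/-- the list coded by `n` is good for the requirement `r` -/
def Good (r n : ℕ) : Prop :=
  len r ≤ (dl n).length ∧ ∀ p ∈ lst n, ∀ c, ∃ t, conf t r.unpair.1 p.1 p.2 c = true

theorem ok_iff {b r Y n : ℕ} : ok b r Y n = true ↔
    len r ≤ (dl n).length ∧ ∀ p ∈ lst n, ∀ c ≤ Y, conf b r.unpair.1 p.1 p.2 c = true := by
  unfold ok
  simp only [Bool.and_eq_true, decide_eq_true_eq, List.all_eq_true, List.mem_range,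
    Nat.lt_succ_iff]

/-- a bad list is never believed at late stages -/
theorem ok_false_of_not_good {r n : ℕ} (h : ¬ Good r n) : ∃ Y₀, ∀ Y ≥ Y₀, ∀ b, ok b r Y n = false := by
  by_cases h1 : len r ≤ (dl n).length
  · have h2 : ∃ p ∈ lst n, ∃ c, ∀ t, ¬ conf t r.unpair.1 p.1 p.2 c = true := by
      by_contra h3
      push Not at h3
      exact h ⟨h1, fun p hp c => by
        by_contra h4
        push Not at h4
        obtain ⟨t, ht⟩ := h3 p hp c
        exact h4 t ht⟩
    obtain ⟨p, hp, c, hc⟩ := h2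
    refine ⟨c, fun Y hY b => ?_⟩
    rw [← Bool.not_eq_true, ok_iff]
    rintro ⟨_, h5⟩
    exact hc b (h5 p hp c hY)
  · refine ⟨0, fun Y _ b => ?_⟩
    rw [← Bool.not_eq_true, ok_iff]
    rintro ⟨h5, _⟩
    exact h1 h5

theorem ok_of_good {r n : ℕ} (h : Good r n) (Y : ℕ) : ∃ β, ∀ b ≥ β, ok b r Y n = true := by
  obtain ⟨h1, h2⟩ := h
  choose! t ht using h2
  refine ⟨((lst n).map fun p => ∑ c ∈ range (Y + 1), t p c).sum, fun b hb => ?_⟩
  rw [ok_iff]
  refine ⟨h1, fun p hp c hc => conf_mono ?_ (ht p hp c)⟩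
  have h3 : t p c ≤ ∑ c ∈ range (Y + 1), t p c :=
    Finset.single_le_sum (f := fun c => t p c) (fun _ _ => Nat.zero_le _)
      (Finset.mem_range.2 (by omega))
  have h4 : (∑ c ∈ range (Y + 1), t p c) ≤ ((lst n).map fun p => ∑ c ∈ range (Y + 1), t p c).sum :=
    List.single_le_sum (by simp) _ (List.mem_map.2 ⟨p, hp, rfl⟩)
  omega

theorem findIdx_eq_of {p : ℕ → Bool} {m n : ℕ} (hn : n < m) (h1 : p n = true)
    (h2 : ∀ k < n, p k = false) : (List.range m).findIdx p = n := by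
  rw [List.findIdx_eq (by simpa using hn)]
  constructor
  · simpa using h1
  · intro j hj
    simpa using h2 j hj

/-- if there is a good list, then the guess converges to the least good list -/
theorem exists_cand {r : ℕ} (h : ∃ n, Good r n) :
    ∃ n, Good r n ∧ ∃ Y₀, ∀ Y ≥ Y₀, ∃ β, ∀ b ≥ β, cand b r Y = n := by
  classical
  refine ⟨Nat.find h, Nat.find_spec h, ?_⟩
  have h1 : ∀ k < Nat.find h, ∃ Y₀, ∀ Y ≥ Y₀, ∀ b, ok b r Y k = false :=
    fun k hk => ok_false_of_not_good (Nat.find_min h hk)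
  choose! Y₀ hY₀ using h1
  refine ⟨Nat.find h + ∑ k ∈ range (Nat.find h), Y₀ k, fun Y hY => ?_⟩
  obtain ⟨β, hβ⟩ := ok_of_good (Nat.find_spec h) Y
  refine ⟨β, fun b hb => ?_⟩
  unfold cand
  refine findIdx_eq_of (by omega) (hβ b hb) fun k hk => hY₀ k hk Y ?_ b
  have : Y₀ k ≤ ∑ k ∈ range (Nat.find h), Y₀ k :=
    Finset.single_le_sum (f := Y₀) (fun _ _ => Nat.zero_le _) (Finset.mem_range.2 hk)
  omega

theorem exists_good {X : Set ℕ} {r : ℕ} {D : Finset ℕ} (hD : (D : Set ℕ) ⊆ lg '' (X \ {0}))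
    (hcard : len r ≤ D.card)
    (hX : ∀ x, x ∈ X → ∃ a, ∀ b, ∃ t, conf t r.unpair.1 x a b = true) : ∃ n, Good r n := by
  classical
  have h1 : ∀ y ∈ D, ∃ p : ℕ × ℕ, (0 < p.1 ∧ lg p.1 = y) ∧
      ∀ b, ∃ t, conf t r.unpair.1 p.1 p.2 b = true := by
    intro y hy
    obtain ⟨x, hx, rfl⟩ := hD hy
    obtain ⟨a, ha⟩ := hX x hx.1
    exact ⟨(x, a), ⟨Nat.pos_of_ne_zero hx.2, rfl⟩, ha⟩
  choose! g hg1 hg2 using h1
  refine ⟨Encodable.encode (D.toList.map g), ?_, ?_⟩
  · have h2 : D ⊆ (dl (Encodable.encode (D.toList.map g))).toFinset := by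
      intro y hy
      rw [List.mem_toFinset, mem_dl]
      refine ⟨g y, ?_, hg1 y hy⟩
      unfold lst
      rw [Denumerable.ofNat_encode]
      exact List.mem_map.2 ⟨y, Finset.mem_toList.2 hy, rfl⟩
    have h3 := Finset.card_le_card h2
    exact le_trans hcard (le_trans h3 (List.toFinset_card_le _))
  · intro p hp c
    unfold lst at hp
    rw [Denumerable.ofNat_encode] at hp
    obtain ⟨y, hy, rfl⟩ := List.mem_map.1 hp
    exact hg2 y (Finset.mem_toList.1 hy) c

/-- sums of elements of an infinite set divisible by a given number -/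
theorem exists_dvd_sum {X : Set ℕ} (hX : X.Infinite) (m K : ℕ) (hK : 0 < K) :
    ∃ F : Finset ℕ, (F : Set ℕ) ⊆ X ∧ (∀ x ∈ F, m < x) ∧ K ∣ ∑ x ∈ F, x ∧ F.Nonempty := by
  classical
  -- infinitely many elements of `X` above `m` with the same residue
  have h1 : (X ∩ Set.Ioi m).Infinite := by
    have h0 : (X \ Set.Iic m).Infinite := hX.sdiff (Set.finite_Iic m)
    refine h0.mono fun x hx => ⟨hx.1, ?_⟩
    simpa using hx.2
  have h2 : ∃ ρ, {x | x ∈ X ∩ Set.Ioi m ∧ x % K = ρ}.Infinite := by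
    by_contra h3
    push Not at h3
    refine h1 ?_
    have h4 : X ∩ Set.Ioi m ⊆ ⋃ ρ ∈ (range K : Set ℕ), {x | x ∈ X ∩ Set.Ioi m ∧ x % K = ρ} := by
      intro x hx
      refine Set.mem_biUnion (x := x % K) ?_ ⟨hx, rfl⟩
      simpa using Nat.mod_lt x hK
    refine Set.Finite.subset (Set.Finite.biUnion (Finset.finite_toSet _) fun ρ _ => ?_) h4
    exact h3 ρ
  obtain ⟨ρ, hρ⟩ := h2
  obtain ⟨F, hF, hcard⟩ := hρ.exists_subset_card_eq K
  refine ⟨F, fun x hx => (hF hx).1.1, fun x hx => (hF hx).1.2, ?_, ?_⟩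
  · have h5 : (∑ x ∈ F, x) ≡ ∑ x ∈ F, ρ [MOD K] := by
      have : ∀ G : Finset ℕ, G ⊆ F → (∑ x ∈ G, x) ≡ ∑ x ∈ G, ρ [MOD K] := by
        intro G
        induction G using Finset.induction_on with
        | empty => intro _; simpa using Nat.ModEq.refl 0
        | insert a G ha ih =>
          intro hG
          rw [Finset.sum_insert ha, Finset.sum_insert ha]
          refine Nat.ModEq.add ?_ (ih fun x hx => hG (Finset.mem_insert_of_mem hx))
          have h6 := (hF (hG (Finset.mem_insert_self a G))).2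
          rw [← h6]
          exact (Nat.mod_modEq a K).symm
      exact this F (Finset.Subset.refl F)
    rw [Finset.sum_const, hcard, smul_eq_mul] at h5
    exact (Nat.modEq_zero_iff_dvd).1 (h5.trans ((Nat.modEq_zero_iff_dvd).2 (Nat.dvd_mul_right K ρ)))
  · rw [← Finset.card_pos, hcard]
    exact hK

end Pool.Agent.Helper20.HT
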