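import Pool.Agent.Helper20.HT.Core

/-!
The main argument: every colour occurs on the finite sums of an infinite `Σ⁰₃` set.
-/

namespace Pool.Agent.Helper20.HT

open Finset

/-- a late sum: divisible by a high power of two, with leading digit above a bound depending on
the trailing digit -/
theorem exists_tail {X : Set ℕ} (hX : X.Infinite) (m k : ℕ) (β : ℕ → ℕ) :
    ∃ (F : Finset ℕ) (v : ℕ), (F : Set ℕ) ⊆ X ∧ (∀ x ∈ F, m < x) ∧ k ≤ v ∧
      bit (∑ x ∈ F, x) v = true ∧ (∑ x ∈ F, x) % 2 ^ v = 0 ∧ β v ≤ lg (∑ x ∈ F, x) ∧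
      v < lg (∑ x ∈ F, x) := by
  classical
  obtain ⟨F₁, h1, h2, h3, h4⟩ := exists_dvd_sum hX m (2 ^ k) (by positivity)
  have hy : 0 < ∑ x ∈ F₁, x := by
    obtain ⟨x, hx⟩ := h4
    exact lt_of_lt_of_le (lt_of_le_of_lt (Nat.zero_le m) (h2 x hx))
      (Finset.single_le_sum (f := fun x => x) (fun _ _ => Nat.zero_le _) hx)
  obtain ⟨v, y', hodd, hyv⟩ := Nat.exists_eq_two_pow_mul_odd hy.ne'
  have hkv : k ≤ v := by
    by_contra hlt
    rw [not_le] at hlt
    rw [hyv] at h3
    obtain ⟨j, rfl⟩ : ∃ j, k = v + 1 + j := ⟨k - v - 1, by omega⟩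
    have h5 : 2 ^ v * 2 ∣ 2 ^ v * y' := by
      refine dvd_trans ?_ h3
      rw [pow_add, pow_succ]
      exact Dvd.intro _ rfl
    have h6 : 2 ∣ y' := Nat.dvd_of_mul_dvd_mul_left (by positivity) h5
    exact (Nat.not_even_iff_odd.2 hodd) (even_iff_two_dvd.2 h6)
  obtain ⟨F₂, g1, g2, g3, g4⟩ := exists_dvd_sum hX (m + ∑ x ∈ F₁, x) (2 ^ (v + 1 + β v))
    (by positivity)
  have hz : 0 < ∑ x ∈ F₂, x := by
    obtain ⟨x, hx⟩ := g4
    exact lt_of_lt_of_le (lt_of_le_of_lt (Nat.zero_le _) (g2 x hx))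
      (Finset.single_le_sum (f := fun x => x) (fun _ _ => Nat.zero_le _) hx)
  have hdis : Disjoint F₁ F₂ := by
    rw [Finset.disjoint_left]
    intro x hx1 hx2
    have h5 := g2 x hx2
    have h6 : x ≤ ∑ x ∈ F₁, x :=
      Finset.single_le_sum (f := fun x => x) (fun _ _ => Nat.zero_le _) hx1
    omega
  obtain ⟨q, hq⟩ := g3
  have hsum : ∑ x ∈ F₁ ∪ F₂, x = 2 ^ v * (y' + 2 * (2 ^ β v * q)) := by
    rw [Finset.sum_union hdis, hyv, hq]
    ring
  have hge : 2 ^ (v + 1 + β v) ≤ ∑ x ∈ F₁ ∪ F₂, x := by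
    rw [Finset.sum_union hdis]
    have : 2 ^ (v + 1 + β v) ≤ ∑ x ∈ F₂, x := Nat.le_of_dvd hz ⟨q, hq⟩
    omega
  have hlg : v + 1 + β v ≤ lg (∑ x ∈ F₁ ∪ F₂, x) := by
    have h5 := lt_pow_lg (∑ x ∈ F₁ ∪ F₂, x)
    have h6 : v + 1 + β v < lg (∑ x ∈ F₁ ∪ F₂, x) + 1 :=
      (Nat.pow_lt_pow_iff_right (by norm_num)).1 (lt_of_le_of_lt hge h5)
    omega
  refine ⟨F₁ ∪ F₂, v, ?_, ?_, hkv, ?_, ?_, by omega, by omega⟩
  · rw [Finset.coe_union]
    exact Set.union_subset h1 g1
  · intro x hx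
    rcases Finset.mem_union.1 hx with h | h
    · exact h2 x h
    · have := g2 x h
      omega
  · rw [bit_iff, hsum, Nat.mul_div_cancel_left _ (by positivity), Nat.add_mul_mod_self_left]
    exact Nat.odd_iff.1 hodd
  · rw [hsum]
    exact Nat.mul_mod_right _ _

/-- the leading digits claimed by the requirements before `r` -/
def claimed (b r Y : ℕ) : Finset ℕ :=
  (range r).biUnion fun r' => ((dl (cand b r' Y)).take (len r')).toFinset

theorem card_claimed (b r Y : ℕ) : (claimed b r Y).card ≤ ∑ r' ∈ range r, len r' := by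
  unfold claimed
  refine le_trans Finset.card_biUnion_le (Finset.sum_le_sum fun r' _ => ?_)
  exact le_trans (List.toFinset_card_le _) (List.length_take_le _ _)

theorem sum_len_lt (r : ℕ) : (1 + ∑ r' ∈ range r, len r') * 2 ^ (r + 1) ≤ len r := by
  have h1 : ∑ r' ∈ range r, len r' ≤ r * 4 ^ (r * r) := by
    calc ∑ r' ∈ range r, len r' ≤ ∑ _r' ∈ range r, 4 ^ (r * r) := by
          refine Finset.sum_le_sum fun r' hr' => ?_
          rw [Finset.mem_range] at hr'
          unfold len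
          exact Nat.pow_le_pow_right (by norm_num) (Nat.mul_le_mul hr' hr')
      _ = r * 4 ^ (r * r) := by rw [Finset.sum_const, card_range, smul_eq_mul]
  have h2 : 1 + ∑ r' ∈ range r, len r' ≤ (r + 1) * 4 ^ (r * r) := by
    have : 1 ≤ 4 ^ (r * r) := Nat.one_le_pow _ _ (by norm_num)
    nlinarith
  have h3 : r + 1 ≤ 2 ^ (r + 1) := le_of_lt Nat.lt_two_pow_self
  calc (1 + ∑ r' ∈ range r, len r') * 2 ^ (r + 1)
      ≤ ((r + 1) * 4 ^ (r * r)) * 2 ^ (r + 1) := Nat.mul_le_mul_right _ h2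
    _ ≤ (2 ^ (r + 1) * 4 ^ (r * r)) * 2 ^ (r + 1) :=
        Nat.mul_le_mul_right _ (Nat.mul_le_mul_right _ h3)
    _ = 4 ^ (r * r + (r + 1)) := by
        have h4 : (4 : ℕ) ^ (r + 1) = 2 ^ (r + 1) * 2 ^ (r + 1) := by
          rw [← mul_pow]
          norm_num
        rw [pow_add 4 (r * r) (r + 1), h4]
        ring
    _ ≤ len r := by
        unfold len
        refine Nat.pow_le_pow_right (by norm_num) ?_
        nlinarith

/-- some unclaimed leading digit whose position has a given residue -/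
theorem exists_free {b r Y n ρ : ℕ} (hlen : len r ≤ (dl n).length) (hρ : ρ < md r) :
    ∃ x ∈ dl n, pos n x < len r ∧ pos n x % md r = ρ ∧ x ∉ claimed b r Y := by
  classical
  by_contra hcon
  push Not at hcon
  have hmd : 0 < md r := by unfold md; positivity
  have hmdle : md r ≤ 2 ^ (r + 1) := by
    unfold md
    exact Nat.pow_le_pow_right (by norm_num) (by have := Nat.unpair_right_le r; omega)
  have hS := sum_len_lt r
  set S := ∑ r' ∈ range r, len r' with hSdef
  -- the positions `ρ + q * md r`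
  have hpos : ∀ q ∈ range (S + 1), ρ + md r * q < len r := by
    intro q hq
    rw [Finset.mem_range] at hq
    have h1 : ρ + md r * q < md r * (S + 1) := by
      have : q ≤ S := by omega
      calc ρ + md r * q < md r + md r * q := by omega
        _ = md r * (q + 1) := by ring
        _ ≤ md r * (S + 1) := Nat.mul_le_mul_left _ (by omega)
    have h2 : md r * (S + 1) ≤ 2 ^ (r + 1) * (S + 1) := Nat.mul_le_mul_right _ hmdle
    have h3 : (1 + S) * 2 ^ (r + 1) = 2 ^ (r + 1) * (S + 1) := by ring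
    omega
  have hlt : ∀ q ∈ range (S + 1), ρ + md r * q < (dl n).length := fun q hq =>
    lt_of_lt_of_le (hpos q hq) hlen
  have h1 : ∀ q ∈ range (S + 1), (dl n).getD (ρ + md r * q) 0 ∈ claimed b r Y := by
    intro q hq
    rw [List.getD_eq_getElem _ _ (hlt q hq)]
    have hp : pos n ((dl n)[ρ + md r * q]'(hlt q hq)) = ρ + md r * q := by
      unfold pos
      exact (nodup_dl n).idxOf_getElem _ _
    refine hcon _ (List.getElem_mem _) ?_ ?_
    · rw [hp]; exact hpos q hq
    · rw [hp, Nat.add_mul_mod_self_left, Nat.mod_eq_of_lt hρ]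
  have h2 : Set.InjOn (fun q => (dl n).getD (ρ + md r * q) 0) (range (S + 1) : Set ℕ) := by
    intro q hq q' hq' heq
    simp only [Finset.coe_range, Set.mem_Iio] at hq hq'
    have a1 := hlt q (Finset.mem_range.2 hq)
    have a2 := hlt q' (Finset.mem_range.2 hq')
    simp only at heq
    rw [List.getD_eq_getElem _ _ a1, List.getD_eq_getElem _ _ a2] at heq
    have h3 := (nodup_dl n).getElem_inj_iff.1 heq
    have h4 : md r * q = md r * q' := by omega
    exact Nat.eq_of_mul_eq_mul_left hmd h4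
  have h3 := Finset.card_le_card_of_injOn _ h1 h2
  rw [card_range] at h3
  have h4 := card_claimed b r Y
  omega

/-- if `x` is free, then the requirement `r` acts on it -/
theorem act_eq {b r Y x n : ℕ} (hrY : r ≤ Y) (hc : cand b r Y = n) (hn : n ≤ Y) (hx : x ∈ dl n)
    (hpos : pos n x < len r) (hfree : x ∉ claimed b r Y) : act b Y x = r := by
  unfold act
  refine findIdx_eq_of (by omega) ?_ ?_
  · unfold want
    rw [hc]
    simp only [Bool.and_eq_true, decide_eq_true_eq]
    exact ⟨hn, hpos, List.idxOf_lt_length_iff.2 hx⟩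
  · intro k hk
    rw [← Bool.not_eq_true]
    intro hw
    unfold want at hw
    simp only [Bool.and_eq_true, decide_eq_true_eq] at hw
    obtain ⟨_, h1, h2⟩ := hw
    refine hfree ?_
    unfold claimed
    rw [Finset.mem_biUnion]
    refine ⟨k, Finset.mem_range.2 hk, ?_⟩
    rw [List.mem_toFinset]
    have h3 : x ∈ dl (cand b k Y) := List.idxOf_lt_length_iff.1 h2
    have h4 : (dl (cand b k Y))[pos (cand b k Y) x]'h2 = x := List.getElem_idxOf h2
    rw [← h4]
    have h5 : pos (cand b k Y) x < ((dl (cand b k Y)).take (len k)).length := by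
      rw [List.length_take]
      exact lt_min h1 h2
    have h6 := List.getElem_mem h5
    rwa [List.getElem_take] at h6

/-- every colour occurs on the finite sums of an infinite set `S` which has a `Σ⁰₃` subset with
many different leading digits -/
theorem col_full {S X : Set ℕ} (hS : S.Infinite) (hXS : X ⊆ S) {e : ℕ}
    (hX : ∀ x, x ∈ X ↔ ∃ a, ∀ b, ∃ t, conf t e x a b = true) (i : ℕ) {D : Finset ℕ}
    (hD : (D : Set ℕ) ⊆ lg '' (X \ {0})) (hcard : len (Nat.pair e i) ≤ D.card) :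
    ∃ F : Finset ℕ, F.Nonempty ∧ (F : Set ℕ) ⊆ S ∧ col (∑ x ∈ F, x) = i := by
  classical
  set r := Nat.pair e i with hr
  have hre : r.unpair.1 = e := by rw [hr, Nat.unpair_pair]
  have hri : r.unpair.2 = i := by rw [hr, Nat.unpair_pair]
  have hmd : md r = 2 ^ (i + 1) := by unfold md; rw [hri]
  obtain ⟨n, hgood, Y₀, hY₀⟩ := exists_cand (r := r) (exists_good hD hcard fun x hx =>
    (hX x).1 hx |>.imp fun a ha => by rw [hre]; exact ha)
  choose! β hβ using hY₀
  obtain ⟨F, v, hFX, hFn, hv, ht1, ht2, ht3, ht4⟩ :=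
    exists_tail hS n (Y₀ + n + r + 1) β
  set t := ∑ x ∈ F, x with ht
  set b := lg t with hb
  have hcand : cand b r v = n := hβ v (by omega) b ht3
  set T := table b (b + 1) with hT
  -- the residue which is needed
  obtain ⟨ρ, hρ, hρ'⟩ : ∃ ρ < md r, (ρ + isum T t) % md r = 2 ^ i := by
    rw [hmd]
    have hM : 0 < 2 ^ (i + 1) := by positivity
    refine ⟨(2 ^ i + (2 ^ (i + 1) - isum T t % 2 ^ (i + 1))) % 2 ^ (i + 1), Nat.mod_lt _ hM, ?_⟩
    have h1 : isum T t % 2 ^ (i + 1) < 2 ^ (i + 1) := Nat.mod_lt _ hM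
    rw [Nat.mod_add_mod, ← Nat.add_mod_mod]
    have h2 : 2 ^ i + (2 ^ (i + 1) - isum T t % 2 ^ (i + 1)) + isum T t % 2 ^ (i + 1) =
        2 ^ i + 2 ^ (i + 1) := by omega
    rw [h2, Nat.add_mod_right, Nat.mod_eq_of_lt]
    exact Nat.pow_lt_pow_right (by norm_num) (by omega)
  obtain ⟨x, hx, hxlen, hxρ, hxfree⟩ := exists_free (b := b) (Y := v) hgood.1 hρ
  have hact : act b v x = r := act_eq (by omega) hcand (by omega) hx hxlen hxfree
  obtain ⟨p, hp, hrep, hp0, hlg⟩ := rep_spec hx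
  set w := rep n x with hw
  have hw0 : 0 < w := by rw [hrep]; exact hp0
  have hwX : w ∈ X := by
    rw [hX, hrep]
    refine ⟨p.2, fun c => ?_⟩
    have := hgood.2 p hp c
    rwa [hre] at this
  have hwn : w ≤ n := by rw [hrep]; exact fst_le_of_mem_lst hp
  have hwlg : lg w = x := by rw [hrep]; exact hlg
  have hwv : w < 2 ^ v := lt_of_le_of_lt (le_trans hwn (by omega)) Nat.lt_two_pow_self
  have hxv : x < v := by
    have := lg_le w
    omega
  have hwF : w ∉ F := fun h => by
    have := hFn w h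
    omega
  have htpos : 0 < t := by
    rcases Nat.eq_zero_or_pos t with h | h
    · rw [h] at ht1
      simp [bit] at ht1
    · exact h
  refine ⟨insert w F, Finset.insert_nonempty _ _, ?_, ?_⟩
  · rw [Finset.coe_insert]
    exact Set.insert_subset (hXS hwX) hFX
  · rw [Finset.sum_insert hwF, ← ht]
    unfold col
    rw [lg_add hwv (Nat.dvd_of_mod_eq_zero ht2) htpos, ← hb, ← hT]
    apply v2_eq
    rw [isum_add hw0 hwv ht1 ht2, hwlg, hT, entry_table hxv (by omega), ← hT]
    have hval : val b v (table b v) x = pos n x + (md r - 1) * isum T w := by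
      unfold val
      rw [hact, hcand, ← hw, isum_table hwv (show v ≤ b + 1 by omega), ← hT]
      have : r ≤ v := by omega
      simp [this]
    rw [hval]
    have hmd0 : 0 < md r := by rw [hmd]; positivity
    have h5 : isum T w + (pos n x + (md r - 1) * isum T w) + isum T t =
        (pos n x + isum T t) + md r * isum T w := by
      obtain ⟨M, hM⟩ : ∃ M, md r = M + 1 := ⟨md r - 1, by omega⟩
      rw [hM, Nat.add_sub_cancel]
      ring
    rw [h5, ← hmd, Nat.add_mul_mod_self_left, Nat.add_mod, hxρ, ← hρ']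
    rw [Nat.add_mod ρ (isum T t), Nat.mod_eq_of_lt hρ]

end Pool.Agent.Helper20.HT
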