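import Mathlib

/-!
Primitive recursive colouring for the thin Hindman lower bound: definitions and the proof that
the colouring is primitive recursive.
-/

namespace Pool.Agent.Helper20.HT

open Nat.Partrec (Code)
open Nat.Partrec.Code

theorem primrec_all {α β : Type*} [Primcodable α] [Primcodable β] {f : α → List β}
    {p : α → β → Bool} (hf : Primrec f) (hp : Primrec₂ p) : Primrec fun a => (f a).all (p a) := by
  have h : Primrec fun a => (f a).foldr (fun b s => p a b && s) true :=
    Primrec.list_foldr hf (Primrec.const true)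
      (h := fun a (q : β × Bool) => p a q.1 && q.2)
      (Primrec.to₂ <| Primrec.and.comp
        (hp.comp Primrec.fst (Primrec.fst.comp Primrec.snd)) (Primrec.snd.comp Primrec.snd))
  refine h.of_eq fun a => ?_
  induction f a with
  | nil => rfl
  | cons b l ih => simp [ih]

theorem primrec_any {α β : Type*} [Primcodable α] [Primcodable β] {f : α → List β}
    {p : α → β → Bool} (hf : Primrec f) (hp : Primrec₂ p) : Primrec fun a => (f a).any (p a) := by
  have h : Primrec fun a => (f a).foldr (fun b s => p a b || s) false :=
    Primrec.list_foldr hf (Primrec.const false)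
      (h := fun a (q : β × Bool) => p a q.1 || q.2)
      (Primrec.to₂ <| Primrec.or.comp
        (hp.comp Primrec.fst (Primrec.fst.comp Primrec.snd)) (Primrec.snd.comp Primrec.snd))
  refine h.of_eq fun a => ?_
  induction f a with
  | nil => rfl
  | cons b l ih => simp [ih]

theorem primrec_filter {α β : Type*} [Primcodable α] [Primcodable β] {f : α → List β}
    {p : α → β → Bool} (hf : Primrec f) (hp : Primrec₂ p) :
    Primrec fun a => (f a).filter (p a) := by
  have h : Primrec fun a => (f a).foldr (fun b s => bif p a b then b :: s else s) [] :=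
    Primrec.list_foldr hf (Primrec.const [])
      (h := fun a (q : β × List β) => bif p a q.1 then q.1 :: q.2 else q.2)
      (Primrec.to₂ <| Primrec.cond
        (hp.comp Primrec.fst (Primrec.fst.comp Primrec.snd))
        (Primrec.list_cons.comp (Primrec.fst.comp Primrec.snd) (Primrec.snd.comp Primrec.snd))
        (Primrec.snd.comp Primrec.snd))
  refine h.of_eq fun a => ?_
  induction f a with
  | nil => rfl
  | cons b l ih => cases hb : p a b <;> simp [ih, hb]

/-- position of the leading binary digit -/
def lg (n : ℕ) : ℕ := Nat.findGreatest (fun k => 2 ^ k ≤ n) n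

theorem primrec_pow : Primrec₂ ((· ^ ·) : ℕ → ℕ → ℕ) :=
  Primrec₂.unpaired'.1 Nat.Primrec.pow

theorem primrec_lg : Primrec lg :=
  Primrec.nat_findGreatest Primrec.id
    (Primrec.nat_le.comp (primrec_pow.comp (Primrec.const 2) Primrec.snd) Primrec.fst)

/-- the `m`-th binary digit of `w` is one -/
def bit (w m : ℕ) : Bool := decide (w / 2 ^ m % 2 = 1)

theorem primrec_bit : Primrec₂ bit := by
  have h : PrimrecPred fun q : ℕ × ℕ => q.1 / 2 ^ q.2 % 2 = 1 :=
    Primrec.eq.comp
      (Primrec.nat_mod.comp
        (Primrec.nat_div.comp Primrec.fst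
          (primrec_pow.comp (Primrec.const 2) Primrec.snd)) (Primrec.const 2))
      (Primrec.const 1)
  exact h.decide.to₂

/-- entry `(x, Y)` of a table -/
def entry (T : List (List ℕ)) (x Y : ℕ) : ℕ := (T.getD Y []).getD x 0

theorem primrec_entry {α : Type*} [Primcodable α] {T : α → List (List ℕ)} {x Y : α → ℕ}
    (hT : Primrec T) (hx : Primrec x) (hY : Primrec Y) :
    Primrec fun a => entry (T a) (x a) (Y a) :=
  (Primrec.list_getD 0).comp ((Primrec.list_getD []).comp hT hY) hx

/-- contribution of the digit `m` of `w` -/
def term (T : List (List ℕ)) (w m : ℕ) : ℕ :=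
  bif bit w m && !(decide (w % 2 ^ m = 0)) then entry T (lg (w % 2 ^ m)) m else 0

theorem primrec_term {α : Type*} [Primcodable α] {T : α → List (List ℕ)} {w m : α → ℕ}
    (hT : Primrec T) (hw : Primrec w) (hm : Primrec m) :
    Primrec fun a => term (T a) (w a) (m a) := by
  have h1 : Primrec fun a => w a % 2 ^ m a :=
    Primrec.nat_mod.comp hw (primrec_pow.comp (Primrec.const 2) hm)
  refine Primrec.cond (Primrec.and.comp (primrec_bit.comp hw hm) (Primrec.not.comp ?_))
    (primrec_entry hT (primrec_lg.comp h1) hm) (Primrec.const 0)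
  exact (Primrec.eq.comp h1 (Primrec.const 0)).decide

/-- the sum of the contributions of all digits of `w` -/
def isum (T : List (List ℕ)) (w : ℕ) : ℕ := Nat.rec 0 (fun m s => s + term T w m) w

theorem primrec_isum {α : Type*} [Primcodable α] {T : α → List (List ℕ)} {w : α → ℕ}
    (hT : Primrec T) (hw : Primrec w) : Primrec fun a => isum (T a) (w a) := by
  refine Primrec.nat_rec' (f := w) (g := fun _ => 0)
    (h := fun a (q : ℕ × ℕ) => q.2 + term (T a) (w a) q.1) hw (Primrec.const 0) ?_
  refine Primrec₂.mk (Primrec.nat_add.comp (Primrec.snd.comp Primrec.snd) ?_)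
  exact primrec_term (hT.comp Primrec.fst) (hw.comp Primrec.fst) (Primrec.fst.comp Primrec.snd)

/-- the list of pairs coded by `n` -/
def lst (n : ℕ) : List (ℕ × ℕ) := Denumerable.ofNat (List (ℕ × ℕ)) n

theorem primrec_lst : Primrec lst := Primrec.ofNat _

/-- the first component of `p` is positive and has the leading digit `x` -/
def hit (p : ℕ × ℕ) (x : ℕ) : Bool := decide (0 < p.1) && decide (lg p.1 = x)

theorem primrec_hit {α : Type*} [Primcodable α] {p : α → ℕ × ℕ} {x : α → ℕ} (hp : Primrec p)
    (hx : Primrec x) : Primrec fun a => hit (p a) (x a) :=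
  Primrec.and.comp (Primrec.nat_lt.comp (Primrec.const 0) (Primrec.fst.comp hp)).decide
    (Primrec.eq.comp (primrec_lg.comp (Primrec.fst.comp hp)) hx).decide

/-- the different leading digits of the positive numbers listed by `n` -/
def dl (n : ℕ) : List ℕ :=
  (List.range (n + 1)).filter fun x => (lst n).any fun p => hit p x

theorem primrec_dl : Primrec dl := by
  refine primrec_filter (Primrec.list_range.comp Primrec.succ) (Primrec₂.mk ?_)
  refine primrec_any (primrec_lst.comp Primrec.fst) (Primrec₂.mk ?_)
  exact primrec_hit Primrec.snd (Primrec.snd.comp Primrec.fst)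

/-- the first positive number listed by `n` with leading digit `x` -/
def rep (n x : ℕ) : ℕ :=
  ((lst n).getD ((lst n).findIdx fun p => hit p x) (0, 0)).1

theorem primrec_rep {α : Type*} [Primcodable α] {n x : α → ℕ} (hn : Primrec n)
    (hx : Primrec x) : Primrec fun a => rep (n a) (x a) := by
  refine Primrec.fst.comp ((Primrec.list_getD (0, 0)).comp (primrec_lst.comp hn)
    (Primrec.list_findIdx (primrec_lst.comp hn) (Primrec₂.mk ?_)))
  exact primrec_hit Primrec.snd (hx.comp Primrec.fst)

/-- the computation with index `e` has converged on `(x, a, b)` within `t` steps -/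
def conf (t e x a b : ℕ) : Bool :=
  (evaln t (Denumerable.ofNat Code e) (Nat.pair x (Nat.pair a b))).isSome

theorem primrec_conf {α : Type*} [Primcodable α] {t e x a b : α → ℕ} (ht : Primrec t)
    (he : Primrec e) (hx : Primrec x) (ha : Primrec a) (hb : Primrec b) :
    Primrec fun z => conf (t z) (e z) (x z) (a z) (b z) := by
  refine Primrec.option_isSome.comp (primrec_evaln.comp (Primrec.pair (Primrec.pair ht
    ((Primrec.ofNat Code).comp he)) (Primrec₂.natPair.comp hx (Primrec₂.natPair.comp ha hb))))

/-- modulus of the requirement `r` -/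
def md (r : ℕ) : ℕ := 2 ^ (r.unpair.2 + 1)

theorem primrec_md : Primrec md :=
  primrec_pow.comp (Primrec.const 2) (Primrec.succ.comp (Primrec.snd.comp Primrec.unpair))

/-- number of different leading digits used by the requirement `r` -/
def len (r : ℕ) : ℕ := 4 ^ ((r + 1) * (r + 1))

theorem primrec_len : Primrec len :=
  primrec_pow.comp (Primrec.const 4) (Primrec.nat_mul.comp Primrec.succ Primrec.succ)

/-- at stage `(Y, b)` the requirement `r` believes in the list coded by `n` -/
def ok (b r Y n : ℕ) : Bool :=
  decide (len r ≤ (dl n).length) &&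
    (lst n).all fun p => (List.range (Y + 1)).all fun c => conf b r.unpair.1 p.1 p.2 c

theorem primrec_ok {α : Type*} [Primcodable α] {b r Y n : α → ℕ} (hb : Primrec b)
    (hr : Primrec r) (hY : Primrec Y) (hn : Primrec n) :
    Primrec fun z => ok (b z) (r z) (Y z) (n z) := by
  refine Primrec.and.comp ?_ ?_
  · exact (Primrec.nat_le.comp (primrec_len.comp hr)
      (Primrec.list_length.comp (primrec_dl.comp hn))).decide
  · refine primrec_all (primrec_lst.comp hn) (Primrec₂.mk ?_)
    refine primrec_all (Primrec.list_range.comp (Primrec.succ.comp (hY.comp Primrec.fst)))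
      (Primrec₂.mk ?_)
    exact primrec_conf (hb.comp (Primrec.fst.comp Primrec.fst))
      (Primrec.fst.comp (Primrec.unpair.comp (hr.comp (Primrec.fst.comp Primrec.fst))))
      (Primrec.fst.comp (Primrec.snd.comp Primrec.fst))
      (Primrec.snd.comp (Primrec.snd.comp Primrec.fst)) Primrec.snd

/-- the list of the requirement `r` at stage `(Y, b)`; the value `Y + 1` means that there is none -/
def cand (b r Y : ℕ) : ℕ := (List.range (Y + 1)).findIdx fun n => ok b r Y n

theorem primrec_cand {α : Type*} [Primcodable α] {b r Y : α → ℕ} (hb : Primrec b)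
    (hr : Primrec r) (hY : Primrec Y) : Primrec fun z => cand (b z) (r z) (Y z) := by
  refine Primrec.list_findIdx (Primrec.list_range.comp (Primrec.succ.comp hY)) (Primrec₂.mk ?_)
  exact primrec_ok (hb.comp Primrec.fst) (hr.comp Primrec.fst) (hY.comp Primrec.fst) Primrec.snd

/-- position of `x` among the leading digits of the list coded by `n` -/
def pos (n x : ℕ) : ℕ := (dl n).idxOf x

theorem primrec_pos {α : Type*} [Primcodable α] {n x : α → ℕ} (hn : Primrec n)
    (hx : Primrec x) : Primrec fun z => pos (n z) (x z) :=
  Primrec.list_idxOf.comp hx (primrec_dl.comp hn)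

/-- the requirement `r` wants to act on `x` at stage `(Y, b)` -/
def want (b Y x r : ℕ) : Bool :=
  decide (cand b r Y ≤ Y) && (decide (pos (cand b r Y) x < len r) &&
    decide (pos (cand b r Y) x < (dl (cand b r Y)).length))

theorem primrec_want {α : Type*} [Primcodable α] {b Y x r : α → ℕ} (hb : Primrec b)
    (hY : Primrec Y) (hx : Primrec x) (hr : Primrec r) :
    Primrec fun z => want (b z) (Y z) (x z) (r z) := by
  have hc := primrec_cand hb hr hY
  refine Primrec.and.comp (Primrec.nat_le.comp hc hY).decide (Primrec.and.comp ?_ ?_)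
  · exact (Primrec.nat_lt.comp (primrec_pos hc hx) (primrec_len.comp hr)).decide
  · exact (Primrec.nat_lt.comp (primrec_pos hc hx)
      (Primrec.list_length.comp (primrec_dl.comp hc))).decide

/-- the requirement acting on `x` at stage `(Y, b)`, `Y + 1` if there is none -/
def act (b Y x : ℕ) : ℕ := (List.range (Y + 1)).findIdx fun r => want b Y x r

theorem primrec_act {α : Type*} [Primcodable α] {b Y x : α → ℕ} (hb : Primrec b)
    (hY : Primrec Y) (hx : Primrec x) : Primrec fun z => act (b z) (Y z) (x z) := by
  refine Primrec.list_findIdx (Primrec.list_range.comp (Primrec.succ.comp hY)) (Primrec₂.mk ?_)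
  exact primrec_want (hb.comp Primrec.fst) (hY.comp Primrec.fst) (hx.comp Primrec.fst) Primrec.snd

/-- the value at `(x, Y)`, given the table of the values at smaller stages -/
def val (b Y : ℕ) (T : List (List ℕ)) (x : ℕ) : ℕ :=
  bif decide (act b Y x ≤ Y) then
    pos (cand b (act b Y x) Y) x +
      (md (act b Y x) - 1) * isum T (rep (cand b (act b Y x) Y) x)
  else 0

theorem primrec_val {α : Type*} [Primcodable α] {b Y : α → ℕ} {T : α → List (List ℕ)}
    {x : α → ℕ} (hb : Primrec b) (hY : Primrec Y) (hT : Primrec T) (hx : Primrec x) :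
    Primrec fun z => val (b z) (Y z) (T z) (x z) := by
  have ha := primrec_act hb hY hx
  have hc := primrec_cand hb ha hY
  refine Primrec.cond (Primrec.nat_le.comp ha hY).decide (Primrec.nat_add.comp
    (primrec_pos hc hx) (Primrec.nat_mul.comp (Primrec.pred.comp (primrec_md.comp ha))
      (primrec_isum hT (primrec_rep hc hx)))) (Primrec.const 0)

/-- one more row -/
def row (b Y : ℕ) (T : List (List ℕ)) : List ℕ := (List.range Y).map fun x => val b Y T x

/-- the table of the values at stages below `m` -/
def table (b m : ℕ) : List (List ℕ) := Nat.rec [] (fun Y T => T ++ [row b Y T]) m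

theorem primrec_table : Primrec₂ table := by
  have h : Primrec₂ fun (b : ℕ) (q : ℕ × List (List ℕ)) => q.2 ++ [row b q.1 q.2] := by
    refine Primrec₂.mk (Primrec.list_concat.comp (Primrec.snd.comp Primrec.snd) ?_)
    refine Primrec.list_map (Primrec.list_range.comp (Primrec.fst.comp Primrec.snd))
      (Primrec₂.mk ?_)
    exact primrec_val (Primrec.fst.comp Primrec.fst)
      (Primrec.fst.comp (Primrec.snd.comp Primrec.fst))
      (Primrec.snd.comp (Primrec.snd.comp Primrec.fst)) Primrec.snd
  exact Primrec.nat_rec (f := fun _ : ℕ => ([] : List (List ℕ)))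
    (g := fun (b : ℕ) (q : ℕ × List (List ℕ)) => q.2 ++ [row b q.1 q.2])
    (Primrec.const []) h

/-- number of trailing zero digits -/
def v2 (n : ℕ) : ℕ := Nat.findGreatest (fun k => n % 2 ^ k = 0) n

theorem primrec_v2 : Primrec v2 :=
  Primrec.nat_findGreatest Primrec.id
    (Primrec.eq.comp (Primrec.nat_mod.comp Primrec.fst
      (primrec_pow.comp (Primrec.const 2) Primrec.snd)) (Primrec.const 0))

/-- the colouring -/
def col (s : ℕ) : ℕ := v2 (isum (table (lg s) (lg s + 1)) s)

theorem primrec_col : Primrec col :=
  primrec_v2.comp (primrec_isum (primrec_table.comp primrec_lg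
    (Primrec.succ.comp primrec_lg)) Primrec.id)

end Pool.Agent.Helper20.HT
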