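import Pool.Agent.Helper20.HT.Prim

/-!
Arithmetic of the sums `isum`.
-/

namespace Pool.Agent.Helper20.HT

open Finset

theorem pow_lg_le {n : ℕ} (h : 0 < n) : 2 ^ lg n ≤ n := by
  unfold lg
  exact Nat.findGreatest_spec (P := fun k => 2 ^ k ≤ n) (m := 0) (Nat.zero_le _)
    (by rw [pow_zero]; exact h)

theorem lt_pow_lg (n : ℕ) : n < 2 ^ (lg n + 1) := by
  unfold lg
  by_contra h
  rw [not_lt] at h
  have h1 : Nat.findGreatest (fun k => 2 ^ k ≤ n) n + 1 ≤ n := by
    refine le_of_lt (lt_of_lt_of_le ?_ h)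
    exact Nat.lt_two_pow_self
  have h2 := Nat.le_findGreatest (P := fun k => 2 ^ k ≤ n) h1 h
  omega

theorem lg_eq {n k : ℕ} (h1 : 2 ^ k ≤ n) (h2 : n < 2 ^ (k + 1)) : lg n = k := by
  have hn : 0 < n := lt_of_lt_of_le (by positivity) h1
  have h3 := pow_lg_le hn
  have h4 := lt_pow_lg n
  have h5 : lg n < k + 1 := (Nat.pow_lt_pow_iff_right (by norm_num)).1 (lt_of_le_of_lt h3 h2)
  have h6 : k < lg n + 1 := (Nat.pow_lt_pow_iff_right (by norm_num)).1 (lt_of_le_of_lt h1 h4)
  omega

theorem lg_le (n : ℕ) : lg n ≤ n := Nat.findGreatest_le _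

theorem lg_mono {m n : ℕ} (h : m ≤ n) : lg m ≤ lg n := by
  rcases Nat.eq_zero_or_pos m with rfl | hm
  · simp [lg]
  · have h1 := pow_lg_le hm
    have h2 := lt_pow_lg n
    have : lg m < lg n + 1 :=
      (Nat.pow_lt_pow_iff_right (by norm_num)).1 (lt_of_le_of_lt h1 (lt_of_le_of_lt h h2))
    omega

theorem lg_lt {n k : ℕ} (h : n < 2 ^ k) (hk : 0 < k) : lg n < k := by
  rcases Nat.eq_zero_or_pos n with rfl | hn
  · simpa [lg] using hk
  · exact (Nat.pow_lt_pow_iff_right (by norm_num)).1 (lt_of_le_of_lt (pow_lg_le hn) h)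

/-- adding lower digits does not change the leading digit -/
theorem lg_add {w u k : ℕ} (hw : w < 2 ^ k) (hu : 2 ^ k ∣ u) (hu0 : 0 < u) : lg (w + u) = lg u := by
  obtain ⟨q, rfl⟩ := hu
  have h1 := pow_lg_le hu0
  have h2 := lt_pow_lg (2 ^ k * q)
  have hk : k ≤ lg (2 ^ k * q) := by
    have hq : 1 ≤ q := by
      rcases Nat.eq_zero_or_pos q with rfl | h
      · simp at hu0
      · exact h
    have : 2 ^ k ≤ 2 ^ k * q := Nat.le_mul_of_pos_right _ hq
    have h3 : k < lg (2 ^ k * q) + 1 :=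
      (Nat.pow_lt_pow_iff_right (by norm_num)).1 (lt_of_le_of_lt this h2)
    omega
  apply lg_eq
  · omega
  · obtain ⟨j, hj⟩ : ∃ j, lg (2 ^ k * q) + 1 = k + j := ⟨lg (2 ^ k * q) + 1 - k, by omega⟩
    rw [hj] at h2 ⊢
    rw [pow_add] at h2 ⊢
    have h4 : q < 2 ^ j := lt_of_mul_lt_mul_left h2 (Nat.zero_le _)
    calc w + 2 ^ k * q < 2 ^ k + 2 ^ k * q := by omega
      _ = 2 ^ k * (q + 1) := by ring
      _ ≤ 2 ^ k * 2 ^ j := Nat.mul_le_mul_left _ h4

theorem bit_iff (w m : ℕ) : bit w m = true ↔ w / 2 ^ m % 2 = 1 := by simp [bit]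

theorem bit_eq_false {w m : ℕ} (h : w < 2 ^ m) : bit w m = false := by
  simp [bit, Nat.div_eq_of_lt h]

theorem term_eq_zero {T : List (List ℕ)} {w m : ℕ} (h : w < 2 ^ m) : term T w m = 0 := by
  simp [term, bit_eq_false h]

theorem isum_eq (T : List (List ℕ)) (w : ℕ) : isum T w = ∑ m ∈ range w, term T w m := by
  unfold isum
  have : ∀ k, (Nat.rec 0 (fun m s => s + term T w m) k : ℕ) = ∑ m ∈ range k, term T w m := by
    intro k
    induction k with
    | zero => simp
    | succ k ih => rw [Finset.sum_range_succ, ← ih]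
  exact this w

theorem isum_eq' (T : List (List ℕ)) {w B : ℕ} (h : w < 2 ^ B) :
    isum T w = ∑ m ∈ range B, term T w m := by
  rw [isum_eq]
  rcases le_total w B with h1 | h1
  · refine Finset.sum_subset (Finset.range_mono h1) fun m _ hm => ?_
    rw [Finset.mem_range, not_lt] at hm
    exact term_eq_zero (lt_of_le_of_lt hm Nat.lt_two_pow_self)
  · refine (Finset.sum_subset (Finset.range_mono h1) fun m _ hm => ?_).symm
    rw [Finset.mem_range, not_lt] at hm
    exact term_eq_zero (lt_of_lt_of_le h (Nat.pow_le_pow_right (by norm_num) hm))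

/-- two tables which agree at the rows below `B` give the same sum -/
theorem isum_congr {T T' : List (List ℕ)} {w B : ℕ} (h : w < 2 ^ B)
    (hT : ∀ x Y, x < Y → Y < B → entry T x Y = entry T' x Y) : isum T w = isum T' w := by
  rw [isum_eq' T h, isum_eq' T' h]
  refine Finset.sum_congr rfl fun m hm => ?_
  rw [Finset.mem_range] at hm
  unfold term
  by_cases hb : (bit w m && !(decide (w % 2 ^ m = 0))) = true
  · rw [hb]
    simp only [Bool.and_eq_true, Bool.not_eq_true', decide_eq_false_iff_not] at hb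
    have hpos : 0 < w % 2 ^ m := Nat.pos_of_ne_zero hb.2
    have h1 : w % 2 ^ m < 2 ^ m := Nat.mod_lt _ (by positivity)
    have hm0 : 0 < m := by
      rcases Nat.eq_zero_or_pos m with rfl | h0
      · simp [Nat.mod_one] at hpos
      · exact h0
    exact hT _ _ (lg_lt h1 hm0) hm
  · rw [Bool.not_eq_true] at hb
    rw [hb]
    rfl

theorem mod_add_of_le {w t k m : ℕ} (hw : w < 2 ^ k) (ht : 2 ^ k ∣ t) (hm : k ≤ m) :
    (w + t) % 2 ^ m = w + t % 2 ^ m ∧ (w + t) / 2 ^ m = t / 2 ^ m := by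
  have hk : (2 : ℕ) ^ k ∣ 2 ^ m := pow_dvd_pow _ hm
  have h1 : 2 ^ k ∣ t % 2 ^ m := (Nat.dvd_mod_iff hk).2 ht
  obtain ⟨q, hq⟩ := h1
  obtain ⟨j, rfl⟩ : ∃ j, m = k + j := ⟨m - k, by omega⟩
  have h2 : t % 2 ^ (k + j) < 2 ^ (k + j) := Nat.mod_lt _ (by positivity)
  have h3 : w + t % 2 ^ (k + j) < 2 ^ (k + j) := by
    rw [hq] at h2 ⊢
    rw [pow_add] at h2 ⊢
    have h4 : q < 2 ^ j := lt_of_mul_lt_mul_left h2 (Nat.zero_le _)
    calc w + 2 ^ k * q < 2 ^ k + 2 ^ k * q := by omega
      _ = 2 ^ k * (q + 1) := by ring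
      _ ≤ 2 ^ k * 2 ^ j := Nat.mul_le_mul_left _ h4
  have h5 : w + t = 2 ^ (k + j) * (t / 2 ^ (k + j)) + (w + t % 2 ^ (k + j)) := by
    have := Nat.div_add_mod t (2 ^ (k + j))
    omega
  constructor
  · rw [h5, Nat.mul_add_mod, Nat.mod_eq_of_lt h3]
  · conv_lhs => rw [h5]
    rw [Nat.mul_add_div (by positivity), Nat.div_eq_of_lt h3, add_zero]

theorem mod_add_of_gt {w t k m : ℕ} (ht : 2 ^ k ∣ t) (hm : m < k) :
    (w + t) % 2 ^ m = w % 2 ^ m ∧ (w + t) / 2 ^ m % 2 = w / 2 ^ m % 2 := by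
  obtain ⟨q, rfl⟩ := ht
  obtain ⟨j, rfl⟩ : ∃ j, k = m + 1 + j := ⟨k - m - 1, by omega⟩
  have h1 : w + 2 ^ (m + 1 + j) * q = w + 2 ^ m * (2 * (2 ^ j * q)) := by ring
  constructor
  · rw [h1, Nat.add_mul_mod_self_left]
  · rw [h1, Nat.add_mul_div_left _ _ (by positivity), Nat.add_mul_mod_self_left]

/-- the sum of `w + t` splits when the digits of `w` lie below those of `t` -/
theorem isum_add {T : List (List ℕ)} {w t v : ℕ} (hw0 : 0 < w) (hw : w < 2 ^ v)
    (ht1 : bit t v = true) (ht2 : t % 2 ^ v = 0) :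
    isum T (w + t) = isum T w + entry T (lg w) v + isum T t := by
  have ht : 2 ^ v ∣ t := Nat.dvd_of_mod_eq_zero ht2
  obtain ⟨B, hB⟩ : ∃ B, w + t < 2 ^ B := ⟨w + t, Nat.lt_two_pow_self⟩
  have hvB : v < B := by
    have h1 : 2 ^ v ≤ t := by
      refine Nat.le_of_dvd (Nat.pos_of_ne_zero ?_) ht
      rintro rfl
      simp [bit] at ht1
    exact (Nat.pow_lt_pow_iff_right (by norm_num)).1 (lt_of_le_of_lt (by omega) hB)
  rw [isum_eq' T hB, isum_eq' T (lt_of_le_of_lt (Nat.le_add_right w t) hB),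
    isum_eq' T (lt_of_le_of_lt (Nat.le_add_left t w) hB)]
  have key : ∀ m ∈ range B, term T (w + t) m =
      term T w m + (if m = v then entry T (lg w) v else 0) + term T t m := by
    intro m _
    rcases lt_trichotomy m v with h | h | h
    · obtain ⟨h1, h2⟩ := mod_add_of_gt (w := w) ht h
      have h3 : term T (w + t) m = term T w m := by
        unfold term bit
        rw [h1, h2]
      have h4 : term T t m = 0 := by
        have h5 : t / 2 ^ m % 2 = 0 := by
          obtain ⟨q, rfl⟩ := ht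
          obtain ⟨j, rfl⟩ : ∃ j, v = m + 1 + j := ⟨v - m - 1, by omega⟩
          have h6 : 2 ^ (m + 1 + j) * q = 2 ^ m * (2 * (2 ^ j * q)) := by ring
          rw [h6, Nat.mul_div_cancel_left _ (by positivity), Nat.mul_mod_right]
        unfold term bit
        rw [h5]
        simp
      rw [h3, h4, if_neg (by omega), add_zero, add_zero]
    · subst h
      obtain ⟨h1, h2⟩ := mod_add_of_le hw ht (le_refl m)
      have h3 : term T w m = 0 := term_eq_zero hw
      have h4 : term T t m = 0 := by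
        unfold term
        rw [ht2]
        simp
      have h5 : bit (w + t) m = true := by
        rw [bit_iff, h2]
        exact (bit_iff _ _).1 ht1
      rw [h3, h4, if_pos rfl, zero_add, add_zero]
      unfold term
      rw [h5, h1, ht2, add_zero]
      have : ¬ w = 0 := by omega
      simp [this]
    · obtain ⟨h1, h2⟩ := mod_add_of_le hw ht h.le
      have h3 : term T w m = 0 :=
        term_eq_zero (lt_of_lt_of_le hw (Nat.pow_le_pow_right (by norm_num) h.le))
      rw [h3, if_neg (by omega), zero_add, zero_add]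
      unfold term bit
      rw [h1, h2]
      have h6 : 2 ^ v ∣ t % 2 ^ m := (Nat.dvd_mod_iff (pow_dvd_pow _ h.le)).2 ht
      by_cases hb : t / 2 ^ m % 2 = 1
      · have h7 : 0 < t % 2 ^ m := by
          -- the digit `v < m` of `t` is one
          by_contra h0
          have h8 : t % 2 ^ m = 0 := by omega
          have h9 : 2 ^ m ∣ t := Nat.dvd_of_mod_eq_zero h8
          obtain ⟨q, rfl⟩ := h9
          obtain ⟨j, rfl⟩ : ∃ j, m = v + 1 + j := ⟨m - v - 1, by omega⟩
          have h6 : 2 ^ (v + 1 + j) * q = 2 ^ v * (2 * (2 ^ j * q)) := by ring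
          rw [bit_iff, h6, Nat.mul_div_cancel_left _ (by positivity), Nat.mul_mod_right] at ht1
          omega
        rw [lg_add hw h6 h7]
        have h11 : ¬ t % 2 ^ m = 0 := by omega
        simp [h11]
      · simp [hb]
  rw [Finset.sum_congr rfl key, Finset.sum_add_distrib, Finset.sum_add_distrib,
    Finset.sum_ite_eq' (range B) v, if_pos (Finset.mem_range.2 hvB)]

theorem length_table (b m : ℕ) : (table b m).length = m := by
  induction m with
  | zero => rfl
  | succ m ih =>
    have : table b (m + 1) = table b m ++ [row b m (table b m)] := rfl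
    rw [this, List.length_append, ih]
    rfl

theorem getD_table {b m Y : ℕ} (h : Y < m) : (table b m).getD Y [] = row b Y (table b Y) := by
  induction m with
  | zero => omega
  | succ m ih =>
    have hs : table b (m + 1) = table b m ++ [row b m (table b m)] := rfl
    rw [hs]
    rcases Nat.lt_succ_iff_lt_or_eq.1 h with h1 | rfl
    · rw [List.getD_append _ _ _ _ (by rw [length_table]; exact h1), ih h1]
    · rw [List.getD_append_right _ _ _ _ (by rw [length_table]), length_table]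
      simp

theorem entry_table {b m x Y : ℕ} (hx : x < Y) (h : Y < m) :
    entry (table b m) x Y = val b Y (table b Y) x := by
  unfold entry
  rw [getD_table h]
  unfold row
  rw [List.getD_eq_getElem?_getD, List.getElem?_map, List.getElem?_range hx]
  rfl

theorem isum_table {b m m' w : ℕ} (h : w < 2 ^ m) (h' : m ≤ m') :
    isum (table b m) w = isum (table b m') w := by
  refine isum_congr h fun x Y hx hY => ?_
  rw [entry_table hx hY, entry_table hx (lt_of_lt_of_le hY h')]

/-- value of the trailing zeros -/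
theorem v2_eq {n i : ℕ} (h : n % 2 ^ (i + 1) = 2 ^ i) : v2 n = i := by
  have hn : 2 ^ i ≤ n := by
    rw [← h]
    exact Nat.mod_le _ _
  have h1 : n % 2 ^ i = 0 := by
    have h2 : n % 2 ^ (i + 1) % 2 ^ i = n % 2 ^ i := Nat.mod_mod_of_dvd _ (pow_dvd_pow _ (by omega))
    rw [← h2, h, Nat.mod_self]
  unfold v2
  rw [Nat.findGreatest_eq_iff]
  refine ⟨le_trans (le_of_lt Nat.lt_two_pow_self) hn, fun _ => h1, ?_⟩
  intro k hk _ h3
  have h4 : 2 ^ (i + 1) ∣ n := (pow_dvd_pow _ hk).trans (Nat.dvd_of_mod_eq_zero h3)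
  rw [Nat.mod_eq_zero_of_dvd h4] at h
  have : 0 < 2 ^ i := by positivity
  omega

end Pool.Agent.Helper20.HT
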